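import Mathlib
import Pool.Agent.Q3.Mst.Main

/-!
# MP_3865e9_co: an oriented graph with multiple state transfer on six vertices
-/

set_option autoImplicit false

namespace Pool.Agent.Results.MP_3865e9_co.SixVertices

/-- an oriented graph: no two vertices are joined by arcs in both directions (so, taking `a = b`,
there are no loops) -/
structure OGraph (V : Type) where
  /-- `arc a b`: there is an arc `a → b` -/
  arc : V → V → Prop
  asymm : ∀ a b, arc a b → ¬ arc b a

open Classical in
/-- the skew adjacency matrix: `S_{ab} = 1` and `S_{ba} = -1` for every arc `a → b` -/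
noncomputable def skew {V : Type} (X : OGraph V) : Matrix V V ℂ :=
  fun a b => if X.arc a b then 1 else if X.arc b a then -1 else 0

/-- the Hermitian matrix `M = i S` -/
noncomputable def herm {V : Type} (X : OGraph V) : Matrix V V ℂ := Complex.I • skew X

/-- the transition matrix `U(t) = exp (i t M)` -/
noncomputable def U {V : Type} [Fintype V] [DecidableEq V] (X : OGraph V) (t : ℝ) :
    Matrix V V ℂ :=
  NormedSpace.exp ((Complex.I * (t : ℂ)) • herm X)

/-- perfect state transfer from `a` to `b` at time `t` -/
def PST {V : Type} [Fintype V] [DecidableEq V] (X : OGraph V) (a b : V) (t : ℝ) : Prop :=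
  ∃ α : ℂ, (U X t).mulVec (Pi.single a 1) = α • Pi.single b 1

/-- multiple state transfer on `S` -/
def MultipleStateTransfer {V : Type} [Fintype V] [DecidableEq V] (X : OGraph V)
    (S : Finset V) : Prop :=
  2 < S.card ∧ ∀ a ∈ S, ∀ b ∈ S, a ≠ b → ∃ t : ℝ, PST X a b t

/-- There is an (unweighted) oriented graph on 72 vertices that admits multiple state transfer on
a set of six vertices. -/
theorem result : ∃ (V : Type) (_ : Fintype V) (_ : DecidableEq V) (X : OGraph V) (S : Finset V),
    Fintype.card V = 72 ∧ S.card = 6 ∧ MultipleStateTransfer X S := by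
  classical
  let X : OGraph Q3.Mst.V :=
    { arc := fun v w => Q3.Mst.arcB v w = true
      asymm := fun v w h => by
        have := Q3.Mst.arcB_asymm v w h
        simp [this] }
  have hs : skew X = -Q3.Mst.A := by
    funext v w
    have h := Q3.Mst.arcB_asymm v w
    simp only [skew, Matrix.neg_apply, Q3.Mst.A, Q3.Mst.ent, X]
    by_cases h1 : Q3.Mst.arcB v w = true
    · simp [h1, h h1]
    · by_cases h2 : Q3.Mst.arcB w v = true
      · simp [h1, h2]
      · simp [h1, h2]
  have hU : ∀ m : ℕ, U X ((m : ℝ) * Q3.Mst.T) = Q3.Mst.W ^ m := by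
    intro m
    rw [Q3.Mst.W_pow, U, herm, hs]
    congr 1
    funext v w
    simp only [Matrix.smul_apply, Matrix.neg_apply, smul_eq_mul]
    linear_combination (-((m * Q3.Mst.T : ℝ) : ℂ) * Q3.Mst.A v w) * Complex.I_mul_I
  have hit : ∀ j k : Fin 6, ∃ m : Fin 6, (fun i : Fin 6 => i + 1)^[m.val] j = k := by
    decide +kernel
  refine ⟨Q3.Mst.V, inferInstance, inferInstance, X,
    (Finset.univ : Finset (Fin 6)).map ⟨Sum.inl, Sum.inl_injective⟩, ?_, by simp, ?_, ?_⟩
  · decide +kernel
  · simp
  · intro a ha b hb _
    simp only [Finset.mem_map, Finset.mem_univ, true_and, Function.Embedding.coeFn_mk] at ha hb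
    obtain ⟨j, rfl⟩ := ha
    obtain ⟨k, rfl⟩ := hb
    obtain ⟨m, hm⟩ := hit j k
    refine ⟨(m.val : ℝ) * Q3.Mst.T, 1, ?_⟩
    rw [hU, one_smul]
    have := Q3.Mst.W_pow_e m.val j
    rw [hm] at this
    exact this

end Pool.Agent.Results.MP_3865e9_co.SixVertices
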